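import Pool.Agent.H16.TO.Targets

/-!
# The counting quantifier and the satisfaction relation are first-order
-/

set_option autoImplicit false

namespace Pool.Agent.H50.TW

open Pool.Agent.H69.Sp Pool.Agent.H16.TO

/-- renaming the two variables -/
theorem fd_ren {F : ℕ → (ℕ → List ℕ → Prop) → ℕ → ℕ → Prop}
    (h : FD (fun N E v => F N E (v 0) (v 1))) (x y : ℕ) :
    FD (fun N E v => F N E (v x) (v y)) := by
  refine (FD.ex (x + y + 2) ((FD.eq (x + y + 2) x).and (FD.ex (x + y + 3)
    ((FD.eq (x + y + 3) y).and (FD.ex 0 ((FD.eq 0 (x + y + 2)).and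
    (FD.ex 1 ((FD.eq 1 (x + y + 3)).and h)))))))).congr fun N E v hv => ?_
  have e1 : x ≠ x + y + 2 := by omega
  have e2 : y ≠ x + y + 2 := by omega
  have e3 : y ≠ x + y + 3 := by omega
  have e4 : x + y + 2 ≠ 0 := by omega
  have e6 : x + y + 3 ≠ 0 := by omega
  have e7 : x + y + 3 ≠ 1 := by omega
  have e8 : x + y + 2 ≠ x + y + 3 := by omega
  have e9 : (0 : ℕ) ≠ 1 := by omega
  simp only [Function.update_self, Function.update_of_ne e1, Function.update_of_ne e2,
    Function.update_of_ne e3, Function.update_of_ne e4,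
    Function.update_of_ne e6, Function.update_of_ne e7, Function.update_of_ne e8,
    Function.update_of_ne e9]
  constructor
  · rintro ⟨a, _, rfl, b, _, rfl, c, _, rfl, e, _, rfl, hF⟩
    exact hF
  · intro hF
    exact ⟨_, hv x, rfl, _, hv y, rfl, _, hv x, rfl, _, hv y, rfl, hF⟩

/-- counting from the least element -/
theorem le_ncard_iff {S : Set ℕ} (hS : S.Finite) (k : ℕ) :
    k + 1 ≤ S.ncard ↔ ∃ a ∈ S, k ≤ {b | a < b ∧ b ∈ S}.ncard := by
  constructor
  · intro h
    have hne : S.Nonempty := by
      rw [← Set.ncard_pos hS]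
      omega
    refine ⟨sInf S, Nat.sInf_mem hne, ?_⟩
    have he : S ⊆ insert (sInf S) {b | sInf S < b ∧ b ∈ S} := by
      intro b hb
      rcases Nat.lt_or_ge (sInf S) b with h1 | h1
      · exact Or.inr ⟨h1, hb⟩
      · exact Or.inl (le_antisymm h1 (Nat.sInf_le hb))
    have hf : {b | sInf S < b ∧ b ∈ S}.Finite := hS.subset fun b hb => hb.2
    have h2 := Set.ncard_le_ncard he (hf.insert _)
    have h3 := Set.ncard_insert_le (sInf S) {b | sInf S < b ∧ b ∈ S}
    omega
  · rintro ⟨a, ha, h⟩
    have hf : {b | a < b ∧ b ∈ S}.Finite := hS.subset fun b hb => hb.2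
    have h1 : insert a {b | a < b ∧ b ∈ S} ⊆ S := by
      rintro b (rfl | hb)
      · exact ha
      · exact hb.2
    have h2 : a ∉ {b | a < b ∧ b ∈ S} := fun h => lt_irrefl _ h.1
    have h3 := Set.ncard_le_ncard h1 hS
    rw [Set.ncard_insert_of_notMem h2 hf] at h3
    omega

/-- the counting quantifier is first-order -/
theorem pf_cq : T_CQ := by
  intro F h
  refine ⟨fd_ren h 1 0, fd_ren h 0 0, ?_⟩
  have key : ∀ k, FD (fun N E v =>
      k ≤ {b | v 0 < b ∧ b ∈ {a | a < N ∧ F N E a (v 1)}}.ncard) := by
    intro k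
    induction k with
    | zero => exact FD.tt.congr fun N E v _ => by simp
    | succ k ih =>
      have ih' := fd_ren (F := fun N E x y =>
        k ≤ {b | x < b ∧ b ∈ {a | a < N ∧ F N E a y}}.ncard) ih 2 1
      have h' := fd_ren h 2 1
      refine (FD.ex 2 ((FD.lt 0 2).and (h'.and ih'))).congr fun N E v hv => ?_
      have e1 : (0 : ℕ) ≠ 2 := by omega
      have e2 : (1 : ℕ) ≠ 2 := by omega
      simp only [Function.update_self, Function.update_of_ne e1, Function.update_of_ne e2]
      have hf : {b | v 0 < b ∧ b ∈ {a | a < N ∧ F N E a (v 1)}}.Finite :=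
        (Set.finite_lt_nat N).subset fun b hb => hb.2.1
      rw [le_ncard_iff hf]
      constructor
      · rintro ⟨a, h1, h2, h3, h4⟩
        refine ⟨a, ⟨h2, h1, h3⟩, h4.trans (Set.ncard_le_ncard ?_ (hf.subset fun b hb => hb.2))⟩
        intro b hb
        exact ⟨hb.1, h2.trans hb.1, hb.2⟩
      · rintro ⟨a, ⟨h2, h1, h3⟩, h4⟩
        refine ⟨a, h1, h2, h3, h4.trans (Set.ncard_le_ncard ?_ ?_)⟩
        · intro b hb
          exact ⟨hb.1, hb.2.2⟩
        · exact (Set.finite_lt_nat N).subset fun b hb => hb.2.1
  intro k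
  cases k with
  | zero => exact FD.tt.congr fun N E v _ => by simp
  | succ k =>
    have ih' := fd_ren (F := fun N E x y =>
      k ≤ {b | x < b ∧ b ∈ {a | a < N ∧ F N E a y}}.ncard) (key k) 2 1
    have h' := fd_ren h 2 1
    refine (FD.ex 2 (h'.and ih')).congr fun N E v hv => ?_
    have e2 : (1 : ℕ) ≠ 2 := by omega
    simp only [Function.update_self, Function.update_of_ne e2]
    have hf : {a | a < N ∧ F N E a (v 1)}.Finite :=
      (Set.finite_lt_nat N).subset fun b hb => hb.1
    rw [le_ncard_iff hf]
    constructor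
    · rintro ⟨a, h1, h3, h4⟩
      exact ⟨a, ⟨h1, h3⟩, h4⟩
    · rintro ⟨a, ⟨h1, h3⟩, h4⟩
      exact ⟨a, h1, h3, h4⟩

/-- the satisfaction relation is first-order -/
theorem pf_sf : T_CQ → T_SF := by
  intro hcq φ
  induction φ with
  | un i v =>
    cases v
    · exact (FD.par (2 * i) [0]).congr fun N E v _ => by simp [C2.SatN]
    · exact (FD.par (2 * i) [1]).congr fun N E v _ => by simp [C2.SatN]
  | bi i v w =>
    cases v <;> cases w
    · exact (FD.par (2 * i + 1) [0, 0]).congr fun N E v _ => by simp [C2.SatN]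
    · exact (FD.par (2 * i + 1) [0, 1]).congr fun N E v _ => by simp [C2.SatN]
    · exact (FD.par (2 * i + 1) [1, 0]).congr fun N E v _ => by simp [C2.SatN]
    · exact (FD.par (2 * i + 1) [1, 1]).congr fun N E v _ => by simp [C2.SatN]
  | eq v w =>
    cases v <;> cases w
    · exact (FD.eq 0 0).congr fun N E v _ => by simp [C2.SatN]
    · exact (FD.eq 0 1).congr fun N E v _ => by simp [C2.SatN]
    · exact (FD.eq 1 0).congr fun N E v _ => by simp [C2.SatN]
    · exact (FD.eq 1 1).congr fun N E v _ => by simp [C2.SatN]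
  | neg φ ih => exact ih.not
  | and φ ψ ih ih' => exact ih.and ih'
  | cnt k v φ ih =>
    cases v
    · refine ((hcq (fun N E x y => φ.SatN N (fun i a => E (2 * i) [a])
        (fun i a b => E (2 * i + 1) [a, b]) (fun w => if w then y else x)) ih).2.2 k).congr
        fun N E v _ => ?_
      have e : ∀ a, Function.update (fun w : Bool => if w then v 1 else v 0) false a =
          fun w => if w then v 1 else a := by
        intro a
        funext w
        cases w <;> simp
      simp only [C2.SatN, e]
    · have h1 := (hcq (fun N E x y => φ.SatN N (fun i a => E (2 * i) [a])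
        (fun i a b => E (2 * i + 1) [a, b]) (fun w => if w then y else x)) ih).1
      have h2 := (hcq (fun N E x y => φ.SatN N (fun i a => E (2 * i) [a])
        (fun i a b => E (2 * i + 1) [a, b]) (fun w => if w then x else y)) h1).2.2 k
      refine ((hcq (fun N E _ y => k ≤ {a | a < N ∧ φ.SatN N (fun i a => E (2 * i) [a])
        (fun i a b => E (2 * i + 1) [a, b]) (fun w => if w then a else y)}.ncard) h2).1).congr
        fun N E v _ => ?_
      have e : ∀ a, Function.update (fun w : Bool => if w then v 1 else v 0) true a =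
          fun w => if w then a else v 0 := by
        intro a
        funext w
        cases w <;> simp
      simp only [C2.SatN, e]

end Pool.Agent.H50.TW
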